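import Mathlib

set_option autoImplicit false

open Topology Metric Set Filter

namespace Pool.Agent.H44

variable {X : Type*} [NormedAddCommGroup X] [NormedSpace ℝ X]

/-- `J` chooses a support functional of the norm at each point. -/
structure IsDuality (J : X → StrongDual ℝ X) : Prop where
  norm_le : ∀ x, ‖J x‖ ≤ 1
  apply_self : ∀ x, J x x = ‖x‖

theorem exists_isDuality (X : Type*) [NormedAddCommGroup X] [NormedSpace ℝ X] :
    ∃ J : X → StrongDual ℝ X, IsDuality J := by
  have h : ∀ x : X, ∃ g : StrongDual ℝ X, ‖g‖ ≤ 1 ∧ g x = ‖x‖ := fun x => by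
    obtain ⟨g, hg, hx⟩ := exists_dual_vector'' ℝ x
    exact ⟨g, hg, by simpa using hx⟩
  choose J hJ using h
  exact ⟨J, fun x => (hJ x).1, fun x => (hJ x).2⟩

theorem IsDuality.apply_le {J : X → StrongDual ℝ X} (hJ : IsDuality J) (x y : X) :
    J x y ≤ ‖y‖ := by
  calc J x y ≤ ‖J x y‖ := le_abs_self _
    _ ≤ ‖J x‖ * ‖y‖ := (J x).le_opNorm y
    _ ≤ 1 * ‖y‖ := by gcongr; exact hJ.norm_le x
    _ = ‖y‖ := one_mul _

theorem IsDuality.mono {J : X → StrongDual ℝ X} (hJ : IsDuality J) (x y : X) :
    0 ≤ (J x - J y) (x - y) := by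
  have h1 := hJ.apply_le x y
  have h2 := hJ.apply_le y x
  have h3 := hJ.apply_self x
  have h4 := hJ.apply_self y
  simp only [_root_.sub_apply, map_sub]
  linarith

/-- Preiss-Zajicek / Asplund: in a Banach space with separable dual, a duality selection is
continuous at a dense set of points. -/
theorem dense_continuousAt [CompleteSpace X]
    [TopologicalSpace.SeparableSpace (StrongDual ℝ X)]
    {J : X → StrongDual ℝ X} (hJ : IsDuality J) :
    Dense {x : X | ContinuousAt J x} := by
  -- the oscillation sets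
  let O : ℕ → Set X := fun n => {x | ∃ V ∈ 𝓝 x, ∀ y ∈ V, ∀ z ∈ V, ‖J y - J z‖ ≤ 1 / ((n : ℝ) + 1)}
  have hOopen : ∀ n, IsOpen (O n) := by
    intro n
    rw [isOpen_iff_mem_nhds]
    rintro x ⟨V, hV, h⟩
    obtain ⟨W, hWV, hWo, hxW⟩ := _root_.mem_nhds_iff.1 hV
    refine mem_of_superset (hWo.mem_nhds hxW) ?_
    intro y hy
    exact ⟨W, hWo.mem_nhds hy, fun a ha b hb => h a (hWV ha) b (hWV hb)⟩
  have hOdense : ∀ n, Dense (O n) := by
    intro n
    set ε : ℝ := 1 / ((n : ℝ) + 1) with hε
    have hεpos : 0 < ε := by positivity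
    by_contra hnd
    rw [dense_iff_inter_open] at hnd
    push Not at hnd
    obtain ⟨W, hWo, hWne, hWO⟩ := hnd
    -- dense sequence in dual
    obtain ⟨xs, hxs⟩ := TopologicalSpace.exists_dense_seq (StrongDual ℝ X)
    let B : ℕ → Set X := fun m => {x | ‖J x - xs m‖ < ε / 16}
    have hB : (⋃ m, closure (B m)) = univ := by
      rw [eq_univ_iff_forall]
      intro x
      have hx : J x ∈ closure (Set.range xs) := hxs (J x)
      rw [Metric.mem_closure_range_iff] at hx
      obtain ⟨m, hm⟩ := hx (ε / 16) (by positivity)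
      refine mem_iUnion.2 ⟨m, subset_closure ?_⟩
      rw [dist_eq_norm] at hm
      exact hm
    have hd : Dense (⋃ m, interior (closure (B m))) :=
      dense_iUnion_interior_of_closed (fun m => isClosed_closure) hB
    obtain ⟨x₀, hx₀W, hx₀⟩ := hd.inter_open_nonempty W hWo hWne
    obtain ⟨m, hm⟩ := mem_iUnion.1 hx₀
    set W' : Set X := W ∩ interior (closure (B m)) with hW'
    have hW'o : IsOpen W' := hWo.inter isOpen_interior
    have hx₀W' : x₀ ∈ W' := ⟨hx₀W, hm⟩
    -- a point of B m in W'
    have : (W' ∩ B m).Nonempty := by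
      have : x₀ ∈ closure (B m) := interior_subset hm
      rw [_root_.mem_closure_iff] at this
      exact this W' hW'o hx₀W'
    obtain ⟨x, hxW', hxB⟩ := this
    -- x not in O n
    have hxO : x ∉ O n := fun h => by
      have : x ∈ W ∩ O n := ⟨hxW'.1, h⟩
      rw [hWO] at this
      exact this
    have hex : ∃ y ∈ W', ∃ z ∈ W', ε < ‖J y - J z‖ := by
      by_contra hcon
      push Not at hcon
      exact hxO ⟨W', hW'o.mem_nhds hxW', hcon⟩
    have hex2 : ∃ y ∈ W', ε / 2 < ‖J y - J x‖ := by
      obtain ⟨y, hy, z, hz, hyz⟩ := hex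
      by_contra hcon
      push Not at hcon
      have h1 := hcon y hy
      have h2 := hcon z hz
      have h3 : ‖J y - J z‖ ≤ ‖J y - J x‖ + ‖J z - J x‖ := by
        have : J y - J z = (J y - J x) - (J z - J x) := by abel
        rw [this]
        exact norm_sub_le _ _
      linarith
    obtain ⟨y, hyW', hy⟩ := hex2
    have hy2 : ε / 2 - ε / 16 < ‖J y - xs m‖ := by
      have h3 : ‖J y - J x‖ ≤ ‖J y - xs m‖ + ‖J x - xs m‖ := by
        have : J y - J x = (J y - xs m) - (J x - xs m) := by abel
        rw [this]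
        exact norm_sub_le _ _
      have h4 : ‖J x - xs m‖ < ε / 16 := hxB
      linarith
    -- a unit direction
    have hdir : ∃ v : X, ‖v‖ ≤ 1 ∧ ε / 4 < (J y - xs m) v := by
      by_contra hcon
      push Not at hcon
      have : ‖J y - xs m‖ ≤ ε / 4 := by
        refine ContinuousLinearMap.opNorm_le_of_unit_norm (by positivity) ?_
        intro v hv
        rw [Real.norm_eq_abs, abs_le]
        constructor
        · have := hcon (-v) (by rw [norm_neg]; exact hv.le)
          rw [map_neg] at this
          linarith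
        · exact hcon v hv.le
      linarith
    obtain ⟨v, hv1, hv⟩ := hdir
    -- open set near y in direction v
    obtain ⟨r, hr, hball⟩ := Metric.isOpen_iff.1 hW'o y hyW'
    set s : ℝ := r / 4 with hs
    have hspos : 0 < s := by positivity
    set ρ : ℝ := min (ε / 16) 1 with hρ
    have hρpos : 0 < ρ := by positivity
    -- centre
    set c : X := y + s • v with hc
    have hcW' : c ∈ W' := by
      apply hball
      rw [mem_ball, dist_eq_norm, hc, add_sub_cancel_left, norm_smul, Real.norm_eq_abs,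
        abs_of_pos hspos]
      nlinarith
    have hcl : c ∈ closure (B m) := interior_subset hcW'.2
    rw [Metric.mem_closure_iff] at hcl
    obtain ⟨z, hzB, hzc⟩ := hcl (s * ρ) (by positivity)
    rw [dist_eq_norm] at hzc
    -- monotonicity
    have hmono := hJ.mono z y
    have hdecomp : z - y = s • v + (z - c) := by rw [hc]; abel
    rw [hdecomp, map_add, map_smul, smul_eq_mul] at hmono
    have h5 : (J z - J y) (z - c) ≤ 2 * (s * ρ) := by
      calc (J z - J y) (z - c) ≤ ‖(J z - J y) (z - c)‖ := le_abs_self _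
        _ ≤ ‖J z - J y‖ * ‖z - c‖ := (J z - J y).le_opNorm _
        _ ≤ 2 * (s * ρ) := by
            have h6 : ‖J z - J y‖ ≤ 2 := by
              calc ‖J z - J y‖ ≤ ‖J z‖ + ‖J y‖ := norm_sub_le _ _
                _ ≤ 1 + 1 := add_le_add (hJ.norm_le z) (hJ.norm_le y)
                _ = 2 := by norm_num
            have h7 : ‖z - c‖ ≤ s * ρ := by rw [norm_sub_rev]; exact hzc.le
            gcongr
    have h8 : (J z - xs m) v < ε / 16 := by
      calc (J z - xs m) v ≤ ‖(J z - xs m) v‖ := le_abs_self _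
        _ ≤ ‖J z - xs m‖ * ‖v‖ := (J z - xs m).le_opNorm _
        _ ≤ ‖J z - xs m‖ * 1 := by gcongr
        _ < ε / 16 := by rw [mul_one]; exact hzB
    have h9 : (J z - J y) v = (J z - xs m) v - (J y - xs m) v := by
      simp only [_root_.sub_apply]; ring
    have h10 : (J z - J y) v < ε / 16 - ε / 4 := by rw [h9]; linarith
    have h11 : ρ ≤ ε / 16 := min_le_left _ _
    have h12 : s * (J z - J y) v < s * (ε / 16 - ε / 4) := by
      exact mul_lt_mul_of_pos_left h10 hspos
    have h13 : 2 * (s * ρ) ≤ 2 * (s * (ε / 16)) := by gcongr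
    have h14 : s * (ε / 16 - ε / 4) + 2 * (s * (ε / 16)) < 0 := by
      have : s * (ε / 16 - ε / 4) + 2 * (s * (ε / 16)) = - (s * ε) / 16 := by ring
      rw [this]
      have : 0 < s * ε := by positivity
      linarith
    linarith
  have hdense : Dense (⋂ n, O n) := dense_iInter_of_isOpen hOopen hOdense
  refine hdense.mono ?_
  intro x hx
  rw [mem_iInter] at hx
  change ContinuousAt J x
  rw [Metric.continuousAt_iff']
  intro ε hε
  obtain ⟨n, hn⟩ := exists_nat_one_div_lt hε
  obtain ⟨V, hV, h⟩ := hx n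
  filter_upwards [hV] with y hy
  rw [dist_eq_norm]
  exact lt_of_le_of_lt (h y hy x (mem_of_mem_nhds hV)) hn

end Pool.Agent.H44
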