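import Mathlib

set_option autoImplicit false

open Topology Metric Set Filter

namespace Pool.Agent.H44

variable {X : Type*} [NormedAddCommGroup X] [NormedSpace ℝ X]

/-- A pair of coarse isometries, coarsely inverse to each other. -/
structure CoarsePair (K : ℝ) (g g' : X → X) : Prop where
  iso : ∀ x y, |‖g x - g y‖ - ‖x - y‖| ≤ K
  iso' : ∀ x y, |‖g' x - g' y‖ - ‖x - y‖| ≤ K
  left : ∀ x, ‖g' (g x) - x‖ ≤ K
  right : ∀ x, ‖g (g' x) - x‖ ≤ K

theorem CoarsePair.nonneg {K : ℝ} {g g' : X → X} (h : CoarsePair K g g') : 0 ≤ K :=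
  (abs_nonneg _).trans (h.iso 0 0)

theorem CoarsePair.le {K : ℝ} {g g' : X → X} (h : CoarsePair K g g') (x y : X) :
    ‖g x - g y‖ ≤ ‖x - y‖ + K := by
  have := (abs_le.1 (h.iso x y)).2
  linarith

theorem CoarsePair.ge {K : ℝ} {g g' : X → X} (h : CoarsePair K g g') (x y : X) :
    ‖x - y‖ ≤ ‖g x - g y‖ + K := by
  have := (abs_le.1 (h.iso x y)).1
  linarith

theorem CoarsePair.symm {K : ℝ} {g g' : X → X} (h : CoarsePair K g g') : CoarsePair K g' g :=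
  ⟨h.iso', h.iso, h.right, h.left⟩

/-- reflection in `m` -/
def refl (m : X) (z : X) : X := m + (m - z)

theorem refl_refl (m z : X) : refl m (refl m z) = z := by
  unfold refl; abel

theorem refl_sub (m z w : X) : ‖refl m z - refl m w‖ = ‖z - w‖ := by
  unfold refl
  rw [← norm_neg]
  congr 1
  abel

theorem refl_self (m : X) : refl m m = m := by
  unfold refl; abel

theorem refl_sub_self (m z : X) : ‖refl m z - z‖ = 2 * ‖z - m‖ := by
  unfold refl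
  have : m + (m - z) - z = (2 : ℝ) • (m - z) := by rw [two_smul]; abel
  rw [this, norm_smul, Real.norm_eq_abs, abs_of_pos (by norm_num : (0 : ℝ) < 2), norm_sub_rev]

theorem refl_sub_left (m z w : X) : ‖refl m z - w‖ = ‖z - refl m w‖ := by
  rw [← refl_sub m z (refl m w), refl_refl]

/-- a general composition lemma: `g' ∘ ρ ∘ g` conjugation of an isometric involution -/
theorem CoarsePair.conj {K : ℝ} {g g' : X → X} (h : CoarsePair K g g') (p : X) :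
    CoarsePair (3 * K) (fun x => g' (refl p (g x))) (fun x => g' (refl p (g x))) := by
  have hK := h.nonneg
  have h1 : ∀ x y, |‖g' (refl p (g x)) - g' (refl p (g y))‖ - ‖x - y‖| ≤ 3 * K := by
    intro x y
    have a1 := h.symm.le (refl p (g x)) (refl p (g y))
    have a2 := h.symm.ge (refl p (g x)) (refl p (g y))
    rw [refl_sub] at a1 a2
    have a3 := h.le x y
    have a4 := h.ge x y
    rw [abs_le]
    constructor <;> linarith
  have h2 : ∀ x, ‖g' (refl p (g (g' (refl p (g x))))) - x‖ ≤ 3 * K := by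
    intro x
    set w := refl p (g x) with hw
    have a1 := h.right w
    have a2 := h.symm.le (refl p (g (g' w))) (refl p w)
    rw [refl_sub] at a2
    have a3 : g' (refl p w) = g' (g x) := by rw [hw, refl_refl]
    have a4 := h.left x
    calc ‖g' (refl p (g (g' w))) - x‖
        ≤ ‖g' (refl p (g (g' w))) - g' (refl p w)‖ + ‖g' (refl p w) - x‖ := norm_sub_le_norm_sub_add_norm_sub _ _ _
      _ ≤ (K + K) + K := by
          rw [a3]
          rw [a3] at a2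
          linarith
      _ = 3 * K := by ring
  exact ⟨h1, h1, h2, h2⟩

/-- composing with a reflection -/
theorem CoarsePair.comp_refl {K : ℝ} {g : X → X} (h : CoarsePair K g g) (m : X) :
    CoarsePair K (fun x => refl m (g x)) (fun x => g (refl m x)) := by
  refine ⟨?_, ?_, ?_, ?_⟩
  · intro x y
    rw [refl_sub]; exact h.iso x y
  · intro x y
    have := h.iso (refl m x) (refl m y)
    rw [refl_sub] at this
    exact this
  · intro x
    change ‖g (refl m (refl m (g x))) - x‖ ≤ K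
    rw [refl_refl]
    exact h.left x
  · intro x
    change ‖refl m (g (g (refl m x))) - x‖ ≤ K
    rw [refl_sub_left]
    exact h.left _

/-- the iteration step -/
theorem CoarsePair.step {K : ℝ} {g g' : X → X} (h : CoarsePair K g g') (m : X) :
    CoarsePair (3 * K) (fun x => refl m (g' (refl m (g x)))) (fun x => g' (refl m (g (refl m x)))) :=
  (h.conj m).comp_refl m

theorem CoarsePair.iterate (n : ℕ) : ∀ {K : ℝ} {g g' : X → X}, CoarsePair K g g' →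
    ∀ {a b m : X} {α : ℝ}, refl m a = b → ‖g a - a‖ ≤ α → ‖g b - b‖ ≤ α →
      2 ^ n * ‖g m - m‖ ≤ ‖a - b‖ + 2 ^ n * α + (6 * 3 ^ n - 5 * 2 ^ n) * K := by
  induction n with
  | zero =>
    intro K g g' h a b m α hm ha hb
    have hK := h.nonneg
    have h1 := h.le m a
    have h2 : ‖g m - m‖ ≤ ‖g m - g a‖ + ‖g a - a‖ + ‖a - m‖ := by
      calc ‖g m - m‖ ≤ ‖g m - g a‖ + ‖g a - m‖ := norm_sub_le_norm_sub_add_norm_sub _ _ _
        _ ≤ ‖g m - g a‖ + (‖g a - a‖ + ‖a - m‖) := by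
            gcongr; exact norm_sub_le_norm_sub_add_norm_sub _ _ _
        _ = _ := by ring
    have h3 : ‖a - b‖ = 2 * ‖a - m‖ := by
      rw [← hm, norm_sub_rev, refl_sub_self]
    rw [norm_sub_rev m a] at h1
    simp only [pow_zero, one_mul, mul_one]
    linarith
  | succ n ih =>
    intro K g g' h a b m α hm ha hb
    have hK := h.nonneg
    have hm' : refl m b = a := by rw [← hm, refl_refl]
    have key : ∀ c d : X, refl m c = d → ‖g c - c‖ ≤ α → ‖g d - d‖ ≤ α →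
        ‖refl m (g' (refl m (g c))) - c‖ ≤ 2 * α + 3 * K := by
      intro c d hcd hc hd
      rw [refl_sub_left, hcd]
      have e1 : ‖g' (refl m (g c)) - g' d‖ ≤ α + K := by
        have := h.symm.le (refl m (g c)) d
        rw [← hcd, refl_sub] at this
        rw [← hcd]
        linarith
      have e2 : ‖g' d - d‖ ≤ α + K + K := by
        have e3 := h.symm.le d (g d)
        rw [norm_sub_rev d (g d)] at e3
        have e4 := h.left d
        have e5 : ‖g' d - d‖ ≤ ‖g' d - g' (g d)‖ + ‖g' (g d) - d‖ := norm_sub_le_norm_sub_add_norm_sub _ _ _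
        linarith
      have e6 : ‖g' (refl m (g c)) - d‖ ≤ ‖g' (refl m (g c)) - g' d‖ + ‖g' d - d‖ := norm_sub_le_norm_sub_add_norm_sub _ _ _
      linarith
    have hstep := ih (h.step m) (α := 2 * α + 3 * K) hm (key a b hm ha hb) (key b a hm' hb ha)
    have hdisp : 2 * ‖g m - m‖ - 2 * K ≤ ‖refl m (g' (refl m (g m))) - m‖ := by
      rw [refl_sub_left, refl_self]
      have e1 := h.le (g' (refl m (g m))) m
      have e2 := h.right (refl m (g m))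
      have e3 : ‖refl m (g m) - g m‖ = 2 * ‖g m - m‖ := refl_sub_self _ _
      have e4 : ‖refl m (g m) - g m‖ ≤ ‖refl m (g m) - g (g' (refl m (g m)))‖
          + ‖g (g' (refl m (g m))) - g m‖ := norm_sub_le_norm_sub_add_norm_sub _ _ _
      rw [norm_sub_rev (refl m (g m)) (g (g' (refl m (g m))))] at e4
      linarith
    have h2n : (0 : ℝ) < 2 ^ n := by positivity
    have h4 : 2 ^ n * (2 * ‖g m - m‖ - 2 * K) ≤ 2 ^ n * ‖refl m (g' (refl m (g m))) - m‖ := by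
      gcongr
    have h5 : 2 ^ (n + 1) * ‖g m - m‖ = 2 ^ n * (2 * ‖g m - m‖ - 2 * K) + 2 ^ n * (2 * K) := by
      rw [pow_succ]; ring
    have h6 : ‖a - b‖ + 2 ^ n * (2 * α + 3 * K) + (6 * 3 ^ n - 5 * 2 ^ n) * (3 * K)
        + 2 ^ n * (2 * K) = ‖a - b‖ + 2 ^ (n + 1) * α + (6 * 3 ^ (n + 1) - 5 * 2 ^ (n + 1)) * K := by
      rw [pow_succ, pow_succ]; ring
    linarith

/-- approximate preservation of midpoints -/
theorem CoarsePair.midpoint_le {K : ℝ} {F F' : X → X} (h : CoarsePair K F F') (n : ℕ)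
    {a b m m' : X} (hm : refl m a = b) (hm' : refl m' (F a) = F b) :
    ‖F m - m'‖ ≤ ‖a - b‖ / 2 ^ n + 11 * (3 / 2) ^ n * K := by
  have hK := h.nonneg
  have h0 := (h.conj m').comp_refl m
  have ha : ‖refl m (F' (refl m' (F a))) - a‖ ≤ K := by
    rw [refl_sub_left, hm, hm']
    exact h.left b
  have hmb : refl m b = a := by rw [← hm, refl_refl]
  have hmb' : refl m' (F b) = F a := by rw [← hm', refl_refl]
  have hb : ‖refl m (F' (refl m' (F b))) - b‖ ≤ K := by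
    rw [refl_sub_left, hmb, hmb']
    exact h.left a
  have hit := CoarsePair.iterate n h0 hm ha hb
  have hdisp : 2 * ‖F m - m'‖ - 2 * K ≤ ‖refl m (F' (refl m' (F m))) - m‖ := by
    rw [refl_sub_left, refl_self]
    have e1 := h.le (F' (refl m' (F m))) m
    have e2 := h.right (refl m' (F m))
    have e3 : ‖refl m' (F m) - F m‖ = 2 * ‖F m - m'‖ := refl_sub_self _ _
    have e4 : ‖refl m' (F m) - F m‖ ≤ ‖refl m' (F m) - F (F' (refl m' (F m)))‖
        + ‖F (F' (refl m' (F m))) - F m‖ := norm_sub_le_norm_sub_add_norm_sub _ _ _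
    rw [norm_sub_rev (refl m' (F m)) (F (F' (refl m' (F m))))] at e4
    linarith
  have h2n : (0 : ℝ) < 2 ^ n := by positivity
  have h4 : 2 ^ n * (2 * ‖F m - m'‖ - 2 * K) ≤ 2 ^ n * ‖refl m (F' (refl m' (F m))) - m‖ := by
    gcongr
  have h32 : (2 : ℝ) ^ n * (3 / 2) ^ n = 3 ^ n := by
    rw [← mul_pow]; norm_num
  have h23 : (2 : ℝ) ^ n ≤ 3 ^ n := by gcongr; norm_num
  have h7 : 2 ^ n * (2 * ‖F m - m'‖) ≤ ‖a - b‖ + 21 * 3 ^ n * K := by
    have : (6 * 3 ^ n - 5 * 2 ^ n) * (3 * K) ≤ 18 * 3 ^ n * K := by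
      have : 0 ≤ 2 ^ n * K := by positivity
      nlinarith
    have h8 : 2 ^ n * K ≤ 3 ^ n * K := by gcongr
    nlinarith
  have h9 : ‖F m - m'‖ = (2 ^ n * (2 * ‖F m - m'‖)) / (2 * 2 ^ n) := by
    field_simp
  rw [h9]
  have h10 : ‖a - b‖ / 2 ^ n + 11 * (3 / 2) ^ n * K = (2 * ‖a - b‖ + 22 * 3 ^ n * K) / (2 * 2 ^ n) := by
    rw [← h32]
    field_simp
    ring
  rw [h10]
  gcongr
  have : 0 ≤ 3 ^ n * K := by positivity
  have : 0 ≤ ‖a - b‖ := norm_nonneg _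
  nlinarith

theorem CoarsePair.tendsto_aux [CompleteSpace X] {K : ℝ} {F F' : X → X} (h : CoarsePair K F F')
    (x : X) : ∃ y, Tendsto (fun k : ℕ => ((2 : ℝ) ^ k)⁻¹ • F ((2 : ℝ) ^ k • x)) atTop (𝓝 y) := by
  have hK := h.nonneg
  refine cauchySeq_tendsto_of_complete ?_
  refine cauchySeq_of_le_geometric (3 / 4) (2 * ‖x‖ + 11 * K + ‖F 0‖) (by norm_num) ?_
  intro k
  have hm : refl ((2 : ℝ) ^ k • x) 0 = (2 : ℝ) ^ (k + 1) • x := by
    unfold refl
    rw [pow_succ, mul_smul, two_smul, smul_add]; abel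
  have hm' : refl ((1 / 2 : ℝ) • (F 0 + F ((2 : ℝ) ^ (k + 1) • x))) (F 0)
      = F ((2 : ℝ) ^ (k + 1) • x) := by
    unfold refl
    rw [smul_add]
    have : F 0 = (1 / 2 : ℝ) • F 0 + (1 / 2 : ℝ) • F 0 := by
      rw [← add_smul]; norm_num
    have h2 : F ((2 : ℝ) ^ (k + 1) • x) = (1 / 2 : ℝ) • F ((2 : ℝ) ^ (k + 1) • x)
        + (1 / 2 : ℝ) • F ((2 : ℝ) ^ (k + 1) • x) := by
      rw [← add_smul]; norm_num
    nth_rewrite 3 [this]
    nth_rewrite 3 [h2]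
    abel
  have hmid := h.midpoint_le k hm hm'
  rw [zero_sub, norm_neg, norm_smul, Real.norm_eq_abs, abs_of_pos (by positivity)] at hmid
  have h2k : (0 : ℝ) < 2 ^ k := by positivity
  have e1 : (2 : ℝ) ^ (k + 1) * ‖x‖ / 2 ^ k = 2 * ‖x‖ := by
    rw [pow_succ]; field_simp
  rw [e1] at hmid
  rw [dist_eq_norm]
  have e2 : ((2 : ℝ) ^ k)⁻¹ • F ((2 : ℝ) ^ k • x) - ((2 : ℝ) ^ (k + 1))⁻¹ • F ((2 : ℝ) ^ (k + 1) • x)
      = ((2 : ℝ) ^ k)⁻¹ • ((F ((2 : ℝ) ^ k • x) - (1 / 2 : ℝ) • (F 0 + F ((2 : ℝ) ^ (k + 1) • x)))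
        + (1 / 2 : ℝ) • F 0) := by
    rw [smul_add, smul_sub, smul_add, smul_smul, smul_add, smul_smul, smul_smul]
    have : ((2 : ℝ) ^ (k + 1))⁻¹ = ((2 : ℝ) ^ k)⁻¹ * (1 / 2) := by
      rw [pow_succ, mul_inv]; norm_num
    rw [this]
    abel
  rw [e2, norm_smul, norm_inv, Real.norm_eq_abs, abs_of_pos h2k]
  have e3 : ‖(F ((2 : ℝ) ^ k • x) - (1 / 2 : ℝ) • (F 0 + F ((2 : ℝ) ^ (k + 1) • x)))
        + (1 / 2 : ℝ) • F 0‖ ≤ 2 * ‖x‖ + 11 * (3 / 2) ^ k * K + ‖F 0‖ := by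
    calc _ ≤ ‖(F ((2 : ℝ) ^ k • x) - (1 / 2 : ℝ) • (F 0 + F ((2 : ℝ) ^ (k + 1) • x)))‖
          + ‖(1 / 2 : ℝ) • F 0‖ := norm_add_le _ _
      _ ≤ _ := by
        rw [norm_smul, Real.norm_eq_abs, abs_of_pos (by norm_num : (0 : ℝ) < 1 / 2)]
        have : 0 ≤ ‖F 0‖ := norm_nonneg _
        linarith
  have e4 : ((2 : ℝ) ^ k)⁻¹ ≤ (3 / 4) ^ k := by
    rw [← inv_pow]
    gcongr
    norm_num
  have e5 : ((2 : ℝ) ^ k)⁻¹ * (3 / 2) ^ k = (3 / 4) ^ k := by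
    rw [← inv_pow, ← mul_pow]; norm_num
  calc ((2 : ℝ) ^ k)⁻¹ * ‖(F ((2 : ℝ) ^ k • x) - (1 / 2 : ℝ) • (F 0 + F ((2 : ℝ) ^ (k + 1) • x)))
        + (1 / 2 : ℝ) • F 0‖
      ≤ ((2 : ℝ) ^ k)⁻¹ * (2 * ‖x‖ + 11 * (3 / 2) ^ k * K + ‖F 0‖) := by gcongr
    _ = ((2 : ℝ) ^ k)⁻¹ * (2 * ‖x‖ + ‖F 0‖) + 11 * (((2 : ℝ) ^ k)⁻¹ * (3 / 2) ^ k) * K := by ring
    _ = ((2 : ℝ) ^ k)⁻¹ * (2 * ‖x‖ + ‖F 0‖) + 11 * (3 / 4) ^ k * K := by rw [e5]
    _ ≤ (3 / 4) ^ k * (2 * ‖x‖ + ‖F 0‖) + 11 * (3 / 4) ^ k * K := by gcongr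
    _ = (2 * ‖x‖ + 11 * K + ‖F 0‖) * (3 / 4) ^ k := by ring

theorem CoarsePair.exists_limit [CompleteSpace X] {K : ℝ} {F F' : X → X} (h : CoarsePair K F F') :
    ∃ U : X ≃ₗᵢ[ℝ] X, ∀ x, Tendsto (fun k : ℕ => ((2 : ℝ) ^ k)⁻¹ • F ((2 : ℝ) ^ k • x)) atTop
      (𝓝 (U x)) := by
  choose U hU using h.tendsto_aux
  choose U' hU' using h.symm.tendsto_aux
  have hpow : Tendsto (fun k : ℕ => ((2 : ℝ) ^ k)⁻¹) atTop (𝓝 0) := by
    simp_rw [← inv_pow]
    exact tendsto_pow_atTop_nhds_zero_of_lt_one (by norm_num) (by norm_num)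
  -- isometry
  have hiso : ∀ {G G' : X → X} {V : X → X}, CoarsePair K G G' →
      (∀ x, Tendsto (fun k : ℕ => ((2 : ℝ) ^ k)⁻¹ • G ((2 : ℝ) ^ k • x)) atTop (𝓝 (V x))) →
      ∀ x y, ‖V x - V y‖ = ‖x - y‖ := by
    intro G G' V hG hV x y
    have h1 : Tendsto (fun k : ℕ => ‖((2 : ℝ) ^ k)⁻¹ • G ((2 : ℝ) ^ k • x)
        - ((2 : ℝ) ^ k)⁻¹ • G ((2 : ℝ) ^ k • y)‖) atTop (𝓝 ‖V x - V y‖) :=
      ((hV x).sub (hV y)).norm
    refine tendsto_nhds_unique h1 ?_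
    rw [tendsto_iff_dist_tendsto_zero]
    refine squeeze_zero (fun _ => dist_nonneg) (fun k => ?_) (g := fun k => ((2 : ℝ) ^ k)⁻¹ * K) ?_
    · rw [Real.dist_eq, ← smul_sub, norm_smul, norm_inv, Real.norm_eq_abs,
        abs_of_pos (by positivity : (0 : ℝ) < 2 ^ k)]
      have e1 : ‖x - y‖ = ((2 : ℝ) ^ k)⁻¹ * ‖(2 : ℝ) ^ k • x - (2 : ℝ) ^ k • y‖ := by
        rw [← smul_sub, norm_smul, Real.norm_eq_abs, abs_of_pos (by positivity : (0 : ℝ) < 2 ^ k)]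
        field_simp
      rw [e1, ← mul_sub, abs_mul, abs_of_pos (by positivity : (0 : ℝ) < ((2 : ℝ) ^ k)⁻¹)]
      gcongr
      exact hG.iso _ _
    · have := hpow.mul_const K
      rwa [zero_mul] at this
  -- inverse
  have hinv : ∀ {G G' : X → X} {V V' : X → X}, CoarsePair K G G' →
      (∀ x, Tendsto (fun k : ℕ => ((2 : ℝ) ^ k)⁻¹ • G ((2 : ℝ) ^ k • x)) atTop (𝓝 (V x))) →
      (∀ x, Tendsto (fun k : ℕ => ((2 : ℝ) ^ k)⁻¹ • G' ((2 : ℝ) ^ k • x)) atTop (𝓝 (V' x))) →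
      ∀ x, V' (V x) = x := by
    intro G G' V V' hG hV hV' x
    refine tendsto_nhds_unique (hV' (V x)) ?_
    rw [tendsto_iff_dist_tendsto_zero]
    refine squeeze_zero (fun _ => dist_nonneg) (fun k => ?_)
      (g := fun k => ‖V x - ((2 : ℝ) ^ k)⁻¹ • G ((2 : ℝ) ^ k • x)‖ + ((2 : ℝ) ^ k)⁻¹ * (2 * K)) ?_
    · have h2k : (0 : ℝ) < 2 ^ k := by positivity
      rw [dist_eq_norm]
      have e1 : x = ((2 : ℝ) ^ k)⁻¹ • ((2 : ℝ) ^ k • x) := by
        rw [smul_smul, inv_mul_cancel₀ h2k.ne', one_smul]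
      nth_rewrite 2 [e1]
      rw [← smul_sub, norm_smul, norm_inv, Real.norm_eq_abs, abs_of_pos h2k]
      have e2 := hG.symm.le ((2 : ℝ) ^ k • V x) (G ((2 : ℝ) ^ k • x))
      have e3 := hG.left ((2 : ℝ) ^ k • x)
      have e4 : ‖G' ((2 : ℝ) ^ k • V x) - (2 : ℝ) ^ k • x‖
          ≤ ‖G' ((2 : ℝ) ^ k • V x) - G' (G ((2 : ℝ) ^ k • x))‖
            + ‖G' (G ((2 : ℝ) ^ k • x)) - (2 : ℝ) ^ k • x‖ :=
        norm_sub_le_norm_sub_add_norm_sub _ _ _
      have e5 : ‖(2 : ℝ) ^ k • V x - G ((2 : ℝ) ^ k • x)‖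
          = 2 ^ k * ‖V x - ((2 : ℝ) ^ k)⁻¹ • G ((2 : ℝ) ^ k • x)‖ := by
        have : (2 : ℝ) ^ k • V x - G ((2 : ℝ) ^ k • x)
            = (2 : ℝ) ^ k • (V x - ((2 : ℝ) ^ k)⁻¹ • G ((2 : ℝ) ^ k • x)) := by
          rw [smul_sub, smul_smul, mul_inv_cancel₀ h2k.ne', one_smul]
        rw [this, norm_smul, Real.norm_eq_abs, abs_of_pos h2k]
      have e6 : ‖G' ((2 : ℝ) ^ k • V x) - (2 : ℝ) ^ k • x‖
          ≤ 2 ^ k * ‖V x - ((2 : ℝ) ^ k)⁻¹ • G ((2 : ℝ) ^ k • x)‖ + 2 * K := by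
        rw [← e5]; linarith
      calc ((2 : ℝ) ^ k)⁻¹ * ‖G' ((2 : ℝ) ^ k • V x) - (2 : ℝ) ^ k • x‖
          ≤ ((2 : ℝ) ^ k)⁻¹ * (2 ^ k * ‖V x - ((2 : ℝ) ^ k)⁻¹ • G ((2 : ℝ) ^ k • x)‖ + 2 * K) := by
            gcongr
        _ = _ := by
            rw [mul_add, ← mul_assoc, inv_mul_cancel₀ h2k.ne', one_mul]
    · have e1 : Tendsto (fun k : ℕ => ‖V x - ((2 : ℝ) ^ k)⁻¹ • G ((2 : ℝ) ^ k • x)‖) atTop (𝓝 0) := by
        have := (tendsto_const_nhds (x := V x)).sub (hV x)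
        rw [sub_self] at this
        simpa using this.norm
      have e2 := hpow.mul_const (2 * K)
      rw [zero_mul] at e2
      simpa using e1.add e2
  have hzero : U 0 = 0 := by
    refine tendsto_nhds_unique (hU 0) ?_
    have : (fun k : ℕ => ((2 : ℝ) ^ k)⁻¹ • F ((2 : ℝ) ^ k • (0 : X)))
        = fun k : ℕ => ((2 : ℝ) ^ k)⁻¹ • F 0 := by
      funext k; rw [smul_zero]
    rw [this]
    have := hpow.smul_const (F 0)
    rwa [zero_smul] at this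
  let E : X ≃ᵢ X :=
    { toFun := U
      invFun := U'
      left_inv := hinv h hU hU'
      right_inv := hinv h.symm hU' hU
      isometry_toFun := by
        refine Isometry.of_dist_eq ?_
        intro x y
        rw [dist_eq_norm, dist_eq_norm]
        exact hiso h hU x y }
  refine ⟨E.toRealLinearIsometryEquivOfMapZero hzero, ?_⟩
  intro x
  rw [IsometryEquiv.coe_toRealLinearIsometryEquivOfMapZero]
  exact hU x

end Pool.Agent.H44
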