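import Mathlib
import Pool.Agent.H44.Asplund
import Pool.Agent.H44.Coarse

set_option autoImplicit false

open Topology Set Filter

namespace Pool.Agent.H44

variable {X : Type*} [NormedAddCommGroup X] [NormedSpace ℝ X]

/-- `u` is a unit vector at which the norm is Frechet differentiable, with derivative `f`. -/
structure FPt (u : X) (f : StrongDual ℝ X) : Prop where
  norm_u : ‖u‖ = 1
  apply_u : f u = 1
  norm_f : ‖f‖ ≤ 1
  diff : ∀ ε > 0, ∃ δ > 0, ∀ v : X, ‖v‖ ≤ δ → ‖u + v‖ ≤ 1 + f v + ε * ‖v‖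

theorem apply_le_norm {f : StrongDual ℝ X} (hf : ‖f‖ ≤ 1) (v : X) : f v ≤ ‖v‖ := by
  calc f v ≤ ‖f v‖ := le_abs_self _
    _ ≤ ‖f‖ * ‖v‖ := f.le_opNorm v
    _ ≤ 1 * ‖v‖ := by gcongr
    _ = ‖v‖ := one_mul _

/-- continuity points of the duality map give Frechet smooth unit vectors -/
theorem IsDuality.fpt {J : X → StrongDual ℝ X} (hJ : IsDuality J) {x : X} (hx : x ≠ 0)
    (hc : ContinuousAt J x) : FPt (‖x‖⁻¹ • x) (J x) := by
  have hx' : 0 < ‖x‖ := norm_pos_iff.2 hx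
  refine ⟨?_, ?_, hJ.norm_le x, ?_⟩
  · rw [norm_smul, norm_inv, norm_norm, inv_mul_cancel₀ hx'.ne']
  · rw [map_smul, hJ.apply_self, smul_eq_mul, inv_mul_cancel₀ hx'.ne']
  · intro ε hε
    rw [Metric.continuousAt_iff] at hc
    obtain ⟨δ, hδ, h⟩ := hc ε hε
    refine ⟨δ / (2 * ‖x‖), by positivity, ?_⟩
    intro v hv
    have h1 : ‖‖x‖ • v‖ < δ := by
      rw [norm_smul, norm_norm]
      calc ‖x‖ * ‖v‖ ≤ ‖x‖ * (δ / (2 * ‖x‖)) := by gcongr
        _ = δ / 2 := by field_simp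
        _ < δ := by linarith
    have h2 : dist (J (x + ‖x‖ • v)) (J x) < ε := by
      apply h
      rw [dist_eq_norm, add_sub_cancel_left]
      exact h1
    rw [dist_eq_norm] at h2
    have h3 : ‖x + ‖x‖ • v‖ ≤ ‖x‖ + J x (‖x‖ • v) + ε * ‖‖x‖ • v‖ := by
      have e1 := hJ.apply_self (x + ‖x‖ • v)
      rw [map_add] at e1
      have e2 := hJ.apply_le (x + ‖x‖ • v) x
      have e3 : J (x + ‖x‖ • v) (‖x‖ • v) = J x (‖x‖ • v)
          + (J (x + ‖x‖ • v) - J x) (‖x‖ • v) := by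
        rw [_root_.sub_apply]; ring
      have e4 : (J (x + ‖x‖ • v) - J x) (‖x‖ • v) ≤ ε * ‖‖x‖ • v‖ := by
        calc _ ≤ ‖(J (x + ‖x‖ • v) - J x) (‖x‖ • v)‖ := le_abs_self _
          _ ≤ ‖J (x + ‖x‖ • v) - J x‖ * ‖‖x‖ • v‖ := ContinuousLinearMap.le_opNorm _ _
          _ ≤ ε * ‖‖x‖ • v‖ := by gcongr
      linarith
    have h4 : ‖x‖⁻¹ • x + v = ‖x‖⁻¹ • (x + ‖x‖ • v) := by
      rw [smul_add, smul_smul, inv_mul_cancel₀ hx'.ne', one_smul]
    rw [h4, norm_smul, norm_inv, norm_norm]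
    calc ‖x‖⁻¹ * ‖x + ‖x‖ • v‖ ≤ ‖x‖⁻¹ * (‖x‖ + J x (‖x‖ • v) + ε * ‖‖x‖ • v‖) := by gcongr
      _ = 1 + J x v + ε * ‖v‖ := by
        rw [map_smul, norm_smul, norm_norm, smul_eq_mul]
        field_simp

/-- asymptotic expansion -/
theorem FPt.asymp {u : X} {f : StrongDual ℝ X} (h : FPt u f) (R : ℝ) {ε : ℝ} (hε : 0 < ε) :
    ∃ N : ℝ, ∀ t, N ≤ t → ∀ v : X, ‖v‖ ≤ R → ‖t • u + v‖ ≤ t + f v + ε := by
  set R' : ℝ := max R 1 with hR'
  have hR'pos : 0 < R' := lt_of_lt_of_le one_pos (le_max_right _ _)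
  obtain ⟨δ, hδ, hd⟩ := h.diff (ε / R') (by positivity)
  refine ⟨R' / δ, ?_⟩
  intro t ht v hv
  have htpos : 0 < t := lt_of_lt_of_le (by positivity) ht
  have hv' : ‖v‖ ≤ R' := hv.trans (le_max_left _ _)
  have h1 : ‖t⁻¹ • v‖ ≤ δ := by
    rw [norm_smul, norm_inv, Real.norm_eq_abs, abs_of_pos htpos]
    rw [inv_mul_le_iff₀ htpos]
    rw [div_le_iff₀ hδ] at ht
    linarith
  have h2 := hd _ h1
  have h3 : t • u + v = t • (u + t⁻¹ • v) := by
    rw [smul_add, smul_smul, mul_inv_cancel₀ htpos.ne', one_smul]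
  rw [h3, norm_smul, Real.norm_eq_abs, abs_of_pos htpos]
  calc t * ‖u + t⁻¹ • v‖ ≤ t * (1 + f (t⁻¹ • v) + ε / R' * ‖t⁻¹ • v‖) := by gcongr
    _ = t + f v + ε * (‖v‖ / R') := by
      rw [map_smul, norm_smul, norm_inv, Real.norm_eq_abs, abs_of_pos htpos, smul_eq_mul]
      field_simp
    _ ≤ t + f v + ε * 1 := by
      gcongr
      rw [div_le_one hR'pos]
      exact hv'
    _ = t + f v + ε := by ring

/-- support functionals at points converging to a smooth point converge (upper estimate) -/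
theorem FPt.limsup {u : X} {f : StrongDual ℝ X} (h : FPt u f) {J : X → StrongDual ℝ X}
    (hJ : IsDuality J) {w : ℕ → X} (hw : Tendsto w atTop (𝓝 u)) (v : X) {η : ℝ} (hη : 0 < η) :
    ∀ᶠ k in atTop, J (w k) v ≤ f v + η := by
  obtain ⟨δ, hδ, hd⟩ := h.diff (η / (2 * (‖v‖ + 1))) (by positivity)
  set t : ℝ := δ / (‖v‖ + 1) with ht
  have htpos : 0 < t := by positivity
  have h1 : ‖t • v‖ ≤ δ := by
    rw [norm_smul, Real.norm_eq_abs, abs_of_pos htpos, ht, div_mul_eq_mul_div,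
      div_le_iff₀ (by positivity)]
    gcongr
    linarith
  have h2 := hd _ h1
  have hw' : ∀ᶠ k in atTop, ‖w k - u‖ < t * η / 4 := by
    have := (tendsto_iff_norm_sub_tendsto_zero.1 hw)
    exact this.eventually (gt_mem_nhds (by positivity))
  filter_upwards [hw'] with k hk
  have h3 := hJ.apply_le (w k) (u + t • v)
  have h4 : 1 - 2 * ‖w k - u‖ ≤ J (w k) u := by
    have e1 := hJ.apply_self (w k)
    have e2 : J (w k) u = J (w k) (w k) - J (w k) (w k - u) := by rw [map_sub]; ring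
    have e3 := hJ.apply_le (w k) (w k - u)
    have e4 : ‖u‖ ≤ ‖w k‖ + ‖w k - u‖ := by
      have : u = w k - (w k - u) := by abel
      calc ‖u‖ = ‖w k - (w k - u)‖ := by rw [← this]
        _ ≤ _ := norm_sub_le _ _
    rw [h.norm_u] at e4
    linarith
  rw [map_add, map_smul, smul_eq_mul] at h3
  rw [map_smul, smul_eq_mul] at h2
  have h5 : η / (2 * (‖v‖ + 1)) * ‖t • v‖ ≤ t * η / 2 := by
    rw [norm_smul, Real.norm_eq_abs, abs_of_pos htpos]
    have : ‖v‖ / (‖v‖ + 1) ≤ 1 := by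
      rw [div_le_one (by positivity)]; linarith
    calc η / (2 * (‖v‖ + 1)) * (t * ‖v‖) = t * η / 2 * (‖v‖ / (‖v‖ + 1)) := by
          field_simp
      _ ≤ t * η / 2 * 1 := by gcongr
      _ = _ := mul_one _
  have h6 : t * J (w k) v ≤ t * (f v + η) := by nlinarith
  exact le_of_mul_le_mul_left h6 htpos

/-- the normalised situation: `G` is `T` composed with the inverse of the asymptotic isometry. -/
structure Setup (S : Set X) (G : S → X) : Prop where
  lt_iff : ∀ x y : S, ∀ k : ℕ, ‖(x : X) - y‖ < k ↔ ‖G x - G y‖ < k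
  dense : Dense S
  denseRange : DenseRange G
  asym : ∀ z : X, ∀ s : ℕ → S, (∀ k, ‖(s k : X) - (2 : ℝ) ^ k • z‖ ≤ 1) →
    Tendsto (fun k => ((2 : ℝ) ^ k)⁻¹ • G (s k)) atTop (𝓝 z)

theorem le_add_one_of_lt_iff {a b : ℝ} (ha : 0 ≤ a) (h : ∀ k : ℕ, a < k → b < k) : b ≤ a + 1 := by
  have h1 := h (⌊a⌋₊ + 1) (by push_cast; exact Nat.lt_floor_add_one a)
  push_cast at h1
  have h2 := Nat.floor_le ha
  linarith

theorem Setup.le_add_one {S : Set X} {G : S → X} (h : Setup S G) (x y : S) :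
    ‖G x - G y‖ ≤ ‖(x : X) - y‖ + 1 :=
  le_add_one_of_lt_iff (norm_nonneg _) fun k hk => (h.lt_iff x y k).1 hk

theorem Setup.ge_sub_one {S : Set X} {G : S → X} (h : Setup S G) (x y : S) :
    ‖(x : X) - y‖ ≤ ‖G x - G y‖ + 1 :=
  le_add_one_of_lt_iff (norm_nonneg _) fun k hk => (h.lt_iff x y k).2 hk

theorem exists_near {S : Set X} (hS : Dense S) (z : X) {ε : ℝ} (hε : 0 < ε) :
    ∃ s : S, ‖(s : X) - z‖ < ε := by
  obtain ⟨s, hs, hd⟩ := hS.exists_dist_lt z hε
  exact ⟨⟨s, hs⟩, by rw [dist_comm, dist_eq_norm] at hd; exact hd⟩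

/-- the displacement is bounded in the direction of smooth functionals -/
theorem Setup.bound_dir {S : Set X} {G : S → X} (h : Setup S G) {J : X → StrongDual ℝ X}
    (hJ : IsDuality J) {u : X} {f : StrongDual ℝ X}
    (hu : FPt u f) (x x₀ : S) : f (G x - G x₀) ≤ f ((x : X) - x₀) + 2 := by
  refine le_of_forall_pos_le_add ?_
  intro η hη
  -- points y k near - 2^k u
  have hy : ∀ k : ℕ, ∃ s : S, ‖(s : X) - (2 : ℝ) ^ k • (-u)‖ ≤ 1 := fun k => by
    obtain ⟨s, hs⟩ := exists_near h.dense ((2 : ℝ) ^ k • (-u)) one_pos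
    exact ⟨s, hs.le⟩
  choose y hy using hy
  have hlim := h.asym (-u) y hy
  have hpow : Tendsto (fun k : ℕ => ((2 : ℝ) ^ k)⁻¹) atTop (𝓝 0) := by
    simp_rw [← inv_pow]
    exact tendsto_pow_atTop_nhds_zero_of_lt_one (by norm_num) (by norm_num)
  have hw : Tendsto (fun k : ℕ => ((2 : ℝ) ^ k)⁻¹ • (G x₀ - G (y k))) atTop (𝓝 u) := by
    have h1 := (hpow.smul_const (G x₀)).sub hlim
    rw [zero_smul, zero_sub, neg_neg] at h1
    refine h1.congr ?_
    intro k
    rw [smul_sub]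
  have hev2 := hu.limsup hJ hw (-(G x - G x₀)) (η := η / 2) (by positivity)
  obtain ⟨N, hN⟩ := hu.asymp (‖(x : X)‖ + 1) (ε := η / 2) (by positivity)
  have hbig : ∀ᶠ k : ℕ in atTop, N ≤ (2 : ℝ) ^ k :=
    (tendsto_pow_atTop_atTop_of_one_lt (by norm_num : (1 : ℝ) < 2)).eventually_ge_atTop N
  obtain ⟨k, hk1, hk2⟩ := (hev2.and hbig).exists
  have h2k : (0 : ℝ) < 2 ^ k := by positivity
  set w := ((2 : ℝ) ^ k)⁻¹ • (G x₀ - G (y k)) with hwdef
  -- the support functional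
  have e1 : J w (G x₀ - G (y k)) = ‖G x₀ - G (y k)‖ := by
    have := hJ.apply_self w
    rw [hwdef, map_smul, norm_smul, norm_inv, Real.norm_eq_abs, abs_of_pos h2k, smul_eq_mul] at this
    exact mul_left_cancel₀ (inv_ne_zero h2k.ne') this
  have e2 : J w (G x - G (y k)) ≤ ‖G x - G (y k)‖ := hJ.apply_le _ _
  have e3 := h.le_add_one x (y k)
  have e4 := h.ge_sub_one x₀ (y k)
  have e5 := apply_le_norm hu.norm_f ((x₀ : X) - y k)
  have e6 : ‖(x : X) - y k‖ ≤ f ((x : X) - y k) + η / 2 := by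
    have e7 := hN _ hk2 ((x : X) - y k - (2 : ℝ) ^ k • u) (by
      have : (x : X) - y k - (2 : ℝ) ^ k • u = x - ((y k : X) - (2 : ℝ) ^ k • (-u)) := by
        rw [smul_neg]; abel
      rw [this]
      calc _ ≤ ‖(x : X)‖ + ‖((y k : X) - (2 : ℝ) ^ k • (-u))‖ := norm_sub_le _ _
        _ ≤ _ := by gcongr; exact hy k)
    rw [add_sub_cancel, map_sub, map_smul, hu.apply_u, smul_eq_mul, mul_one] at e7
    linarith
  have e8 : J w (G x - G x₀) = J w (G x - G (y k)) - J w (G x₀ - G (y k)) := by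
    rw [← map_sub]; congr 1; abel
  have e9 : f ((x : X) - x₀) = f ((x : X) - y k) - f ((x₀ : X) - y k) := by
    rw [← map_sub]; congr 1; abel
  rw [map_neg, map_neg] at hk1
  linarith

/-- displacement -/
theorem Setup.bound {S : Set X} {G : S → X} (h : Setup S G) {J : X → StrongDual ℝ X}
    (hJ : IsDuality J) (hd : Dense {x : X | ContinuousAt J x}) (x x₀ : S) :
    ‖(G x - x) - (G x₀ - x₀)‖ ≤ 2 := by
  set v := (G x - x) - (G x₀ - x₀) with hv
  by_contra hcon
  push Not at hcon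
  set η : ℝ := (‖v‖ - 2) / 2 with hη
  have hηpos : 0 < η := by rw [hη]; linarith
  obtain ⟨z, hz, hzv⟩ := hd.exists_dist_lt v (ε := min η 1) (by positivity)
  rw [dist_comm, dist_eq_norm] at hzv
  have hz1 : ‖z - v‖ < η := lt_of_lt_of_le hzv (min_le_left _ _)
  have hz2 : ‖z - v‖ < 1 := lt_of_lt_of_le hzv (min_le_right _ _)
  have hvz : ‖v‖ ≤ ‖z‖ + ‖z - v‖ := by
    have : v = z - (z - v) := by abel
    calc ‖v‖ = ‖z - (z - v)‖ := by rw [← this]
      _ ≤ _ := norm_sub_le _ _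
  have hz0 : z ≠ 0 := by
    intro h0
    rw [h0, norm_zero] at hvz
    rw [h0] at hz2
    linarith
  have hF := hJ.fpt hz0 hz
  have e1 := h.bound_dir hJ hF x x₀
  have e2 : J z v = J z (G x - G x₀) - J z ((x : X) - x₀) := by
    rw [← map_sub, hv]; congr 1; abel
  have e3 : J z v = J z z - J z (z - v) := by rw [← map_sub]; congr 1; abel
  have e4 := hJ.apply_le z (z - v)
  have e5 := hJ.apply_self z
  linarith

/-- monotonicity along smooth functionals -/
theorem Setup.mono {S : Set X} {G : S → X} (h : Setup S G) {J : X → StrongDual ℝ X}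
    (hJ : IsDuality J) (hd : Dense {x : X | ContinuousAt J x}) {u : X} {f : StrongDual ℝ X}
    (hu : FPt u f) {x x' : S} (hlt : f x < f x') : f (G x) ≤ f (G x') := by
  refine le_of_forall_pos_le_add ?_
  intro η hη
  set τ : ℝ := (f x' - f x) / 4 with hτ
  have hτpos : 0 < τ := by rw [hτ]; linarith
  set R : ℝ := 2 + ‖(x' : X) - x‖ + 3 * τ with hR
  obtain ⟨N, hN⟩ := hu.asymp R hη
  obtain ⟨k, hk⟩ := exists_nat_ge (max N (2 * τ))
  have hkN : N ≤ (k : ℝ) := (le_max_left _ _).trans hk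
  have hkτ : 2 * τ ≤ (k : ℝ) := (le_max_right _ _).trans hk
  obtain ⟨y, hy⟩ := exists_near h.dense ((x : X) - (k : ℝ) • u + (2 * τ) • u)
    (ε := τ / 2) (by positivity)
  set w : X := (y : X) - ((x : X) - (k : ℝ) • u + (2 * τ) • u) with hw
  have hyw : (y : X) = (x : X) - (k : ℝ) • u + (2 * τ) • u + w := by rw [hw]; abel
  have hxy : ‖(x : X) - y‖ < k := by
    have : (x : X) - y = ((k : ℝ) - 2 * τ) • u - w := by
      rw [hyw, sub_smul]; abel
    rw [this]
    calc _ ≤ ‖((k : ℝ) - 2 * τ) • u‖ + ‖w‖ := norm_sub_le _ _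
      _ = ((k : ℝ) - 2 * τ) + ‖w‖ := by
        rw [norm_smul, hu.norm_u, Real.norm_eq_abs, abs_of_nonneg (by linarith), mul_one]
      _ < k := by linarith
  have hfw : |f w| ≤ τ / 2 := by
    have h1 := apply_le_norm hu.norm_f w
    have h2 := apply_le_norm hu.norm_f (-w)
    rw [map_neg, norm_neg] at h2
    rw [abs_le]
    constructor <;> linarith
  have hx'y : (k : ℝ) ≤ ‖(x' : X) - y‖ := by
    have h1 := apply_le_norm hu.norm_f ((x' : X) - y)
    have h2 : f ((x' : X) - y) = f x' - f x + k - 2 * τ - f w := by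
      rw [hyw]
      simp only [map_sub, map_add, map_smul, hu.apply_u, smul_eq_mul]
      ring
    have h3 := (abs_le.1 hfw).2
    rw [h2] at h1
    have : f x' - f x = 4 * τ := by rw [hτ]; ring
    linarith
  have hG1 : ‖G x - G y‖ < k := (h.lt_iff x y k).1 hxy
  have hG2 : (k : ℝ) ≤ ‖G x' - G y‖ := by
    by_contra hcon
    push Not at hcon
    exact absurd ((h.lt_iff x' y k).2 hcon) (not_lt.2 hx'y)
  have e1 := apply_le_norm hu.norm_f (G x - G y)
  have e2 := hN k hkN (G x' - G y - (k : ℝ) • u) (by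
    have e3 : G x' - G y - (k : ℝ) • u = ((G x' - x') - (G y - y)) + ((x' : X) - x)
        - ((2 * τ) • u + w) := by
      have : (y : X) - x + (k : ℝ) • u = (2 * τ) • u + w := by rw [hyw]; abel
      rw [← this]; abel
    rw [e3]
    calc _ ≤ ‖((G x' - x') - (G y - y)) + ((x' : X) - x)‖ + ‖(2 * τ) • u + w‖ := norm_sub_le _ _
      _ ≤ (‖((G x' - x') - (G y - y))‖ + ‖(x' : X) - x‖) + (‖(2 * τ) • u‖ + ‖w‖) := by
        gcongr
        · exact norm_add_le _ _
        · exact norm_add_le _ _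
      _ ≤ (2 + ‖(x' : X) - x‖) + (2 * τ + τ / 2) := by
        gcongr
        · exact h.bound hJ hd x' y
        · rw [norm_smul, hu.norm_u, Real.norm_eq_abs, abs_of_pos (by positivity), mul_one]
      _ ≤ R := by rw [hR]; linarith)
  rw [add_sub_cancel, map_sub, map_smul, hu.apply_u, smul_eq_mul, mul_one] at e2
  rw [map_sub] at e1 e2
  linarith

/-- In the strictly convex case in dimension at least two, `G` is a translation. -/
theorem Setup.translation {S : Set X} {G : S → X} (h : Setup S G) {J : X → StrongDual ℝ X}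
    (hJ : IsDuality J) (hd : Dense {x : X | ContinuousAt J x})
    (hsc : ∀ x y : X, ‖x‖ = 1 → ‖y‖ = 1 → x ≠ y → ‖x + y‖ < 2)
    (hdim : ∀ v : X, ∃ w : X, ∀ t : ℝ, w ≠ t • v) :
    ∀ x x' : S, G x - x = G x' - x' := by
  have key : ∀ x₀ : X, ContinuousAt J x₀ → x₀ ≠ 0 → ∀ x x' : S,
      J x₀ ((G x' - x') - (G x - x)) ≤ 0 := by
    intro x₀ hc hx₀ x x'
    refine le_of_forall_pos_le_add ?_
    intro η hη
    rw [zero_add]
    -- a second continuity point off the line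
    have hV : {z : X | dist (J z) (J x₀) < η / 4} ∈ 𝓝 x₀ :=
      (Metric.continuousAt_iff'.1 hc) (η / 4) (by positivity)
    obtain ⟨V, hVsub, hVo, hxV⟩ := mem_nhds_iff.1 hV
    obtain ⟨w, hw⟩ := hdim x₀
    have hlinecl : IsClosed ((ℝ ∙ x₀ : Submodule ℝ X) : Set X) :=
      Submodule.closed_of_finiteDimensional _
    have hex : (V ∩ ((ℝ ∙ x₀ : Submodule ℝ X) : Set X)ᶜ).Nonempty := by
      -- x₀ + t w for small t
      have hcont : Tendsto (fun n : ℕ => x₀ + (1 / ((n : ℝ) + 1)) • w) atTop (𝓝 x₀) := by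
        have h1 := (tendsto_one_div_add_atTop_nhds_zero_nat (𝕜 := ℝ)).smul_const w
        have h2 := h1.const_add x₀
        rwa [zero_smul, add_zero] at h2
      obtain ⟨n, hn⟩ := (hcont.eventually (hVo.mem_nhds hxV)).exists
      refine ⟨_, hn, ?_⟩
      intro hmem
      have hmem' : x₀ + (1 / ((n : ℝ) + 1)) • w ∈ (ℝ ∙ x₀ : Submodule ℝ X) := hmem
      rw [Submodule.mem_span_singleton] at hmem'
      obtain ⟨a, ha⟩ := hmem'
      have hn1 : (1 / ((n : ℝ) + 1)) ≠ 0 := by positivity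
      apply hw ((1 / ((n : ℝ) + 1))⁻¹ * (a - 1))
      rw [mul_smul, sub_smul, one_smul, ha, add_sub_cancel_left, smul_smul,
        inv_mul_cancel₀ hn1, one_smul]
    obtain ⟨x₁, hx₁, hc1⟩ := hd.inter_open_nonempty _ (hVo.inter hlinecl.isOpen_compl) hex
    have hx₁V := hVsub hx₁.1
    have hx₁l : ∀ a : ℝ, x₁ ≠ a • x₀ := by
      intro a ha
      apply hx₁.2
      change x₁ ∈ (ℝ ∙ x₀ : Submodule ℝ X)
      rw [Submodule.mem_span_singleton]
      exact ⟨a, ha.symm⟩
    have hx₁0 : x₁ ≠ 0 := by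
      have := hx₁l 0
      rwa [zero_smul] at this
    have hclose : ‖J x₁ - J x₀‖ < η / 4 := by
      rw [← dist_eq_norm]; exact hx₁V
    -- smooth points
    have hF0 := hJ.fpt hx₀ hc
    have hF1 := hJ.fpt hx₁0 hc1
    set u₀ : X := ‖x₀‖⁻¹ • x₀ with hu0
    set u₁ : X := ‖x₁‖⁻¹ • x₁ with hu1
    set f₀ := J x₀ with hf0
    set f₁ := J x₁ with hf1
    clear_value u₀ u₁ f₀ f₁
    have hn0 : 0 < ‖x₀‖ := norm_pos_iff.2 hx₀
    have hn1 : 0 < ‖x₁‖ := norm_pos_iff.2 hx₁0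
    have hx1u : x₁ = ‖x₁‖ • u₁ := by
      rw [hu1, smul_smul, mul_inv_cancel₀ hn1.ne', one_smul]
    have hne1 : u₀ ≠ u₁ := by
      intro he
      apply hx₁l (‖x₁‖ * ‖x₀‖⁻¹)
      rw [mul_smul, ← hu0, he]
      exact hx1u
    have hne2 : u₀ ≠ -u₁ := by
      intro he
      apply hx₁l (-(‖x₁‖ * ‖x₀‖⁻¹))
      rw [neg_smul, mul_smul, ← hu0, he, smul_neg, neg_neg]
      exact hx1u
    have hp : |f₀ u₁| < 1 := by
      rw [abs_lt]
      constructor
      · have e1 := hsc u₀ (-u₁) hF0.norm_u (by rw [norm_neg]; exact hF1.norm_u) hne2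
        have e2 := apply_le_norm hF0.norm_f (u₀ + -u₁)
        rw [map_add, map_neg, hF0.apply_u] at e2
        linarith
      · have e1 := hsc u₀ u₁ hF0.norm_u hF1.norm_u hne1
        have e2 := apply_le_norm hF0.norm_f (u₀ + u₁)
        rw [map_add, hF0.apply_u] at e2
        linarith
    have hq : |f₁ u₀| ≤ 1 := by
      rw [abs_le]
      have e1 := apply_le_norm hF1.norm_f u₀
      have e2 := apply_le_norm hF1.norm_f (-u₀)
      rw [map_neg, norm_neg] at e2
      rw [hF0.norm_u] at e1 e2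
      constructor <;> linarith
    set p := f₀ u₁ with hp'
    set q := f₁ u₀ with hq'
    have hpq : 0 < 1 - p * q := by
      have : |p * q| < 1 := by
        rw [abs_mul]
        calc |p| * |q| ≤ |p| * 1 := by gcongr
          _ < 1 := by rw [mul_one]; exact hp
      have := (abs_lt.1 this).2
      linarith
    set δ : ℝ := η / 8 with hδ
    have hδpos : 0 < δ := by positivity
    set α : ℝ := f₀ x' + δ / 2 with hα
    set β : ℝ := f₁ x - δ / 2 with hβ
    set z : X := ((α - β * p) / (1 - p * q)) • u₀ + ((β - α * q) / (1 - p * q)) • u₁ with hz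
    have hz0 : f₀ z = α := by
      rw [hz, map_add, map_smul, map_smul, hF0.apply_u, smul_eq_mul, smul_eq_mul, ← hp']
      field_simp
      ring
    have hz1 : f₁ z = β := by
      rw [hz, map_add, map_smul, map_smul, hF1.apply_u, smul_eq_mul, smul_eq_mul, ← hq']
      field_simp
      ring
    obtain ⟨z', hz'⟩ := exists_near h.dense z (ε := δ / 2) (by positivity)
    have g0 : |f₀ z' - α| < δ / 2 := by
      rw [← hz0, ← map_sub]
      have e1 := apply_le_norm hF0.norm_f ((z' : X) - z)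
      have e2 := apply_le_norm hF0.norm_f (-((z' : X) - z))
      rw [map_neg, norm_neg] at e2
      rw [abs_lt]
      constructor <;> linarith
    have g1 : |f₁ z' - β| < δ / 2 := by
      rw [← hz1, ← map_sub]
      have e1 := apply_le_norm hF1.norm_f ((z' : X) - z)
      have e2 := apply_le_norm hF1.norm_f (-((z' : X) - z))
      rw [map_neg, norm_neg] at e2
      rw [abs_lt]
      constructor <;> linarith
    rw [abs_lt] at g0 g1
    have m0 : f₀ (G x') ≤ f₀ (G z') := h.mono hJ hd hF0 (by linarith)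
    have m1 : f₁ (G z') ≤ f₁ (G x) := h.mono hJ hd hF1 (by linarith)
    have b1 : (f₁ - f₀) ((G x - x) - (G z' - z')) ≤ η / 4 * 2 := by
      calc _ ≤ ‖(f₁ - f₀) ((G x - x) - (G z' - z'))‖ := le_abs_self _
        _ ≤ ‖f₁ - f₀‖ * ‖(G x - x) - (G z' - z')‖ := ContinuousLinearMap.le_opNorm _ _
        _ ≤ η / 4 * 2 := by
          gcongr
          exact h.bound hJ hd x z'
    simp only [_root_.sub_apply, map_sub] at b1
    simp only [map_sub]
    linarith
  intro x x'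
  by_contra hne
  set v : X := (G x - x) - (G x' - x') with hv
  have hv0 : v ≠ 0 := by
    rw [hv]; exact sub_ne_zero.2 hne
  have hvpos : 0 < ‖v‖ := norm_pos_iff.2 hv0
  obtain ⟨z, hz, hzv⟩ := hd.exists_dist_lt v (ε := ‖v‖ / 4) (by positivity)
  rw [dist_comm, dist_eq_norm] at hzv
  have hvz : ‖v‖ ≤ ‖z‖ + ‖z - v‖ := by
    have : v = z - (z - v) := by abel
    calc ‖v‖ = ‖z - (z - v)‖ := by rw [← this]
      _ ≤ _ := norm_sub_le _ _
  have hz0 : z ≠ 0 := by
    intro h0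
    rw [h0, norm_zero] at hvz
    rw [h0] at hzv
    linarith
  have e1 := key z hz hz0 x' x
  have e3 : J z v = J z z - J z (z - v) := by rw [← map_sub]; congr 1; abel
  have e4 := hJ.apply_le z (z - v)
  have e5 := hJ.apply_self z
  rw [← hv] at e1
  linarith

end Pool.Agent.H44
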