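import Mathlib
import Pool.Agent.H44.StepIso

set_option autoImplicit false

open Topology Set Filter

namespace Pool.Agent.H44

section line

/-- extension of a strictly monotone map between dense subsets of the line -/
theorem exists_orderIso_ext (A : Set ℝ) (hA : Dense A) (g : A → ℝ) (hg : StrictMono g)
    (hr : DenseRange g) : ∃ φ : ℝ ≃o ℝ, ∀ a : A, φ a = g a := by
  classical
  let φ : ℝ → ℝ := fun t => sSup (g '' {a : A | (a : ℝ) ≤ t})
  have hbdd : ∀ t : ℝ, BddAbove (g '' {a : A | (a : ℝ) ≤ t}) := by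
    intro t
    obtain ⟨b, hbA, hb⟩ := hA.exists_between (lt_add_one t)
    refine ⟨g ⟨b, hbA⟩, ?_⟩
    rintro _ ⟨a, ha, rfl⟩
    exact hg.monotone (Subtype.mk_le_mk.2 (le_trans ha hb.1.le) : a ≤ ⟨b, hbA⟩)
  have hne : ∀ t : ℝ, (g '' {a : A | (a : ℝ) ≤ t}).Nonempty := by
    intro t
    obtain ⟨b, hbA, hb⟩ := hA.exists_between (sub_one_lt t)
    exact ⟨g ⟨b, hbA⟩, ⟨b, hbA⟩, hb.2.le, rfl⟩
  have hφA : ∀ a : A, φ a = g a := by
    intro a
    apply le_antisymm
    · apply csSup_le (hne a)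
      rintro _ ⟨b, hb, rfl⟩
      exact hg.monotone hb
    · exact le_csSup (hbdd a) ⟨a, le_refl (a : ℝ), rfl⟩
  have hmono : Monotone φ := by
    intro s t hst
    exact csSup_le_csSup (hbdd t) (hne s) (image_mono fun a ha => le_trans ha hst)
  have hstrict : StrictMono φ := by
    intro s t hst
    obtain ⟨a, haA, ha⟩ := hA.exists_between hst
    obtain ⟨b, hbA, hb⟩ := hA.exists_between ha.2
    calc φ s ≤ φ a := hmono ha.1.le
      _ = g ⟨a, haA⟩ := hφA ⟨a, haA⟩
      _ < g ⟨b, hbA⟩ := hg hb.1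
      _ = φ b := (hφA ⟨b, hbA⟩).symm
      _ ≤ φ t := hmono hb.2.le
  have hrange : DenseRange φ := by
    refine hr.mono ?_
    rintro _ ⟨a, rfl⟩
    exact ⟨a, hφA a⟩
  have hcont : Continuous φ := hmono.continuous_of_denseRange hrange
  have hsurj : Function.Surjective φ := by
    intro y
    obtain ⟨y1, hy1, hy1'⟩ := hrange.exists_between (sub_one_lt y)
    obtain ⟨y2, hy2, hy2'⟩ := hrange.exists_between (lt_add_one y)
    obtain ⟨a, rfl⟩ := hy1
    obtain ⟨b, rfl⟩ := hy2
    have hab : a ≤ b := by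
      by_contra hcon
      push Not at hcon
      have := hstrict hcon
      linarith [hy1'.2, hy2'.1]
    obtain ⟨c, _, hc⟩ := intermediate_value_Icc hab hcont.continuousOn
      (⟨hy1'.2.le, hy2'.1.le⟩ : y ∈ Icc (φ a) (φ b))
    exact ⟨c, hc⟩
  exact ⟨hstrict.orderIsoOfSurjective φ hsurj, fun a => hφA a⟩

/-- the extension keeps integer thresholds -/
theorem ext_lt_iff (A : Set ℝ) (hA : Dense A) (φ : ℝ ≃o ℝ)
    (h : ∀ a ∈ A, ∀ b ∈ A, ∀ k : ℕ, |a - b| < k ↔ |φ a - φ b| < k) (a b : ℝ) (k : ℕ) :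
    |a - b| < k ↔ |φ a - φ b| < k := by
  have key : ∀ a b : ℝ, a < b → (|a - b| < k ↔ |φ a - φ b| < k) := by
    intro a b hab
    have hφab : φ a < φ b := φ.lt_iff_lt.2 hab
    rw [abs_sub_comm a b, abs_sub_comm (φ a), abs_of_pos (sub_pos.2 hab),
      abs_of_pos (sub_pos.2 hφab)]
    constructor
    · intro hk
      set ε : ℝ := (k - (b - a)) / 2 with hε
      have hεpos : 0 < ε := by rw [hε]; linarith
      obtain ⟨a', ha'A, ha'⟩ := hA.exists_between (sub_lt_self a hεpos)
      obtain ⟨b', hb'A, hb'⟩ := hA.exists_between (lt_add_of_pos_right b hεpos)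
      have h1 : |b' - a'| < k := by
        rw [abs_of_pos (by linarith [ha'.2, hb'.1])]
        linarith [ha'.1, hb'.2]
      have h2 := (h b' hb'A a' ha'A k).1 h1
      have h3 : φ a' < φ a := φ.lt_iff_lt.2 ha'.2
      have h4 : φ b < φ b' := φ.lt_iff_lt.2 hb'.1
      have h5 := (abs_lt.1 h2).2
      linarith
    · intro hk
      set ε : ℝ := (k - (φ b - φ a)) / 2 with hε
      have hεpos : 0 < ε := by rw [hε]; linarith
      have h1 : φ.symm (φ a - ε) < a := by
        rw [OrderIso.symm_apply_lt]; linarith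
      have h2 : b < φ.symm (φ b + ε) := by
        rw [OrderIso.lt_symm_apply]; linarith
      obtain ⟨a', ha'A, ha'⟩ := hA.exists_between h1
      obtain ⟨b', hb'A, hb'⟩ := hA.exists_between h2
      have h3 : φ a - ε < φ a' := by
        have := ha'.1
        rwa [OrderIso.symm_apply_lt] at this
      have h4 : φ b' < φ b + ε := by
        have := hb'.2
        rwa [OrderIso.lt_symm_apply] at this
      have h5 : φ a' < φ b' := φ.lt_iff_lt.2 (by linarith [ha'.2, hb'.1])
      have h6 : |b' - a'| < k := by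
        rw [h b' hb'A a' ha'A k, abs_of_pos (sub_pos.2 h5)]
        linarith
      have h7 := (abs_lt.1 h6).2
      linarith [ha'.2, hb'.1]
  rcases lt_trichotomy a b with hab | hab | hab
  · exact key a b hab
  · subst hab; simp
  · rw [abs_sub_comm, abs_sub_comm (φ a)]
    exact key b a hab

end line

theorem floor_eq_of_lt_iff {a b : ℝ} (ha : 0 ≤ a) (hb : 0 ≤ b) (h : ∀ k : ℕ, a < k ↔ b < k) :
    ⌊a⌋ = ⌊b⌋ := by
  have h1 : ∀ {a b : ℝ}, 0 ≤ a → 0 ≤ b → (∀ k : ℕ, a < k ↔ b < k) → ⌊a⌋ ≤ ⌊b⌋ := by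
    intro a b ha hb h
    rw [Int.le_floor]
    by_contra hcon
    push Not at hcon
    have h0 : 0 ≤ ⌊a⌋ := Int.floor_nonneg.2 ha
    obtain ⟨n, hn⟩ := Int.eq_ofNat_of_zero_le h0
    rw [hn] at hcon
    have h2 := (h n).2 (by exact_mod_cast hcon)
    have h3 := Int.floor_le a
    rw [hn] at h3
    have h4 : (n : ℝ) ≤ a := by exact_mod_cast h3
    linarith
  exact le_antisymm (h1 ha hb h) (h1 hb ha fun k => (h k).symm)

theorem lt_iff_of_floor_eq {a b : ℝ} (h : ⌊a⌋ = ⌊b⌋) (k : ℕ) : a < k ↔ b < k := by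
  have h1 : ∀ a : ℝ, a < k ↔ ⌊a⌋ < (k : ℤ) := by
    intro a
    rw [Int.floor_lt]; norm_cast
  rw [h1 a, h1 b, h]

variable {X : Type*} [NormedAddCommGroup X] [NormedSpace ℝ X]

/-- normalisation by the asymptotic isometry -/
theorem exists_setup [CompleteSpace X] (S : Set X) (hS : Dense S) (T : S ≃ S)
    (hT : ∀ x y : S, ⌊‖(x : X) - y‖⌋ = ⌊‖(T x : X) - T y‖⌋) :
    ∃ U : X ≃ₗᵢ[ℝ] X, Setup S (fun x => U.symm (T x)) := by
  classical
  have hlt : ∀ x y : S, ∀ k : ℕ, ‖(x : X) - y‖ < k ↔ ‖(T x : X) - T y‖ < k :=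
    fun x y k => lt_iff_of_floor_eq (hT x y) k
  have hT1 : ∀ x y : S, |‖(T x : X) - T y‖ - ‖(x : X) - y‖| ≤ 1 := by
    intro x y
    have h1 := le_add_one_of_lt_iff (norm_nonneg ((x : X) - y)) fun k hk => (hlt x y k).1 hk
    have h2 := le_add_one_of_lt_iff (norm_nonneg ((T x : X) - T y)) fun k hk => (hlt x y k).2 hk
    rw [abs_le]
    constructor <;> linarith
  -- nearest points
  have hs : ∀ x : X, ∃ s : S, ‖(s : X) - x‖ ≤ 1 ∧ (x ∈ S → (s : X) = x) := by
    intro x
    by_cases hx : x ∈ S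
    · exact ⟨⟨x, hx⟩, by simp, fun _ => rfl⟩
    · obtain ⟨s, hs⟩ := exists_near hS x one_pos
      exact ⟨s, hs.le, fun h => absurd h hx⟩
  choose s hs1 hs2 using hs
  have hsS : ∀ x : S, s x = x := fun x => Subtype.ext (hs2 x x.2)
  have hiso : ∀ V : S ≃ S, (∀ x y : S, |‖(V x : X) - V y‖ - ‖(x : X) - y‖| ≤ 1) →
      ∀ x y : X, |‖(V (s x) : X) - V (s y)‖ - ‖x - y‖| ≤ 3 := by
    intro V hV x y
    have h1 := abs_le.1 (hV (s x) (s y))
    have h2 := hs1 x
    have h3 := hs1 y
    have h4 : ‖(s x : X) - s y‖ ≤ ‖x - y‖ + 2 := by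
      have : (s x : X) - s y = ((s x : X) - x) + (x - y) - ((s y : X) - y) := by abel
      rw [this]
      calc _ ≤ ‖((s x : X) - x) + (x - y)‖ + ‖(s y : X) - y‖ := norm_sub_le _ _
        _ ≤ ‖(s x : X) - x‖ + ‖x - y‖ + ‖(s y : X) - y‖ := by gcongr; exact norm_add_le _ _
        _ ≤ _ := by linarith
    have h5 : ‖x - y‖ ≤ ‖(s x : X) - s y‖ + 2 := by
      have : x - y = -((s x : X) - x) + ((s x : X) - s y) + ((s y : X) - y) := by abel
      rw [this]
      calc _ ≤ ‖-((s x : X) - x) + ((s x : X) - s y)‖ + ‖(s y : X) - y‖ := norm_add_le _ _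
        _ ≤ ‖-((s x : X) - x)‖ + ‖(s x : X) - s y‖ + ‖(s y : X) - y‖ := by
          gcongr; exact norm_add_le _ _
        _ ≤ _ := by rw [norm_neg]; linarith
    rw [abs_le]
    constructor <;> linarith [h1.1, h1.2]
  have hcp : CoarsePair 3 (fun x => (T (s x) : X)) (fun x => (T.symm (s x) : X)) := by
    refine ⟨hiso T hT1, hiso T.symm ?_, ?_, ?_⟩
    · intro x y
      have := hT1 (T.symm x) (T.symm y)
      rw [Equiv.apply_symm_apply, Equiv.apply_symm_apply] at this
      rw [abs_sub_comm]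
      exact this
    · intro x
      rw [hsS, Equiv.symm_apply_apply]
      exact (hs1 x).trans (by norm_num)
    · intro x
      rw [hsS, Equiv.apply_symm_apply]
      exact (hs1 x).trans (by norm_num)
  obtain ⟨U, hU⟩ := hcp.exists_limit
  have hnU : ∀ x y : X, ‖U.symm x - U.symm y‖ = ‖x - y‖ := by
    intro x y
    rw [← map_sub, LinearIsometryEquiv.norm_map]
  refine ⟨U, ?_, hS, ?_, ?_⟩
  · intro x y k
    rw [hnU]
    exact hlt x y k
  · -- dense range
    have h1 : DenseRange (fun x : S => (T x : X)) := by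
      have : Set.range (fun x : S => (T x : X)) = S := by
        ext z
        constructor
        · rintro ⟨x, rfl⟩; exact (T x).2
        · intro hz; exact ⟨T.symm ⟨z, hz⟩, by simp⟩
      unfold DenseRange
      rw [this]
      exact hS
    exact U.symm.surjective.denseRange.comp h1 U.symm.continuous
  · intro z t ht
    have hpow : Tendsto (fun k : ℕ => ((2 : ℝ) ^ k)⁻¹) atTop (𝓝 0) := by
      simp_rw [← inv_pow]
      exact tendsto_pow_atTop_nhds_zero_of_lt_one (by norm_num) (by norm_num)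
    have h1 : Tendsto (fun k : ℕ => ((2 : ℝ) ^ k)⁻¹ • (T (t k) : X)) atTop (𝓝 (U z)) := by
      have h2 := hU z
      rw [tendsto_iff_norm_sub_tendsto_zero] at h2 ⊢
      refine squeeze_zero (fun _ => norm_nonneg _) (fun k => ?_)
        (g := fun k => ((2 : ℝ) ^ k)⁻¹ * 3 +
          ‖((2 : ℝ) ^ k)⁻¹ • (T (s ((2 : ℝ) ^ k • z)) : X) - U z‖) ?_
      · have h3 : ‖(T (t k) : X) - T (s ((2 : ℝ) ^ k • z))‖ ≤ 3 := by
          have e1 := (abs_le.1 (hT1 (t k) (s ((2 : ℝ) ^ k • z)))).2
          have e2 : ‖(t k : X) - s ((2 : ℝ) ^ k • z)‖ ≤ 2 := by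
            have : (t k : X) - s ((2 : ℝ) ^ k • z) = ((t k : X) - (2 : ℝ) ^ k • z)
              - ((s ((2 : ℝ) ^ k • z) : X) - (2 : ℝ) ^ k • z) := by abel
            rw [this]
            calc _ ≤ ‖(t k : X) - (2 : ℝ) ^ k • z‖ + ‖(s ((2 : ℝ) ^ k • z) : X) - (2 : ℝ) ^ k • z‖ :=
                  norm_sub_le _ _
              _ ≤ 1 + 1 := by gcongr; exact ht k; exact hs1 _
              _ = 2 := by norm_num
          linarith
        calc ‖((2 : ℝ) ^ k)⁻¹ • (T (t k) : X) - U z‖
            = ‖((2 : ℝ) ^ k)⁻¹ • ((T (t k) : X) - T (s ((2 : ℝ) ^ k • z)))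
              + (((2 : ℝ) ^ k)⁻¹ • (T (s ((2 : ℝ) ^ k • z)) : X) - U z)‖ := by
              congr 1; rw [smul_sub]; abel
          _ ≤ ‖((2 : ℝ) ^ k)⁻¹ • ((T (t k) : X) - T (s ((2 : ℝ) ^ k • z)))‖
              + ‖((2 : ℝ) ^ k)⁻¹ • (T (s ((2 : ℝ) ^ k • z)) : X) - U z‖ := norm_add_le _ _
          _ ≤ _ := by
              rw [norm_smul, norm_inv, Real.norm_eq_abs, abs_of_pos (by positivity : (0 : ℝ) < 2 ^ k)]
              gcongr
      · have e1 := hpow.mul_const 3
        rw [zero_mul] at e1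
        simpa using e1.add h2
    have h2 := (U.symm.continuous.tendsto (U z)).comp h1
    rw [LinearIsometryEquiv.symm_apply_apply] at h2
    refine h2.congr ?_
    intro k
    simp only [Function.comp_apply, map_smul]

/-- the real version -/
theorem main_real [CompleteSpace X] [TopologicalSpace.SeparableSpace (StrongDual ℝ X)]
    (hsc : ∀ x y : X, ‖x‖ = 1 → ‖y‖ = 1 → x ≠ y → ‖x + y‖ < 2)
    (S : Set X) (hS : Dense S) (T : S ≃ S)
    (hT : ∀ x y : S, ⌊‖(x : X) - y‖⌋ = ⌊‖(T x : X) - T y‖⌋) :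
    ∃ T' : X ≃ X, (∀ x y : X, ⌊‖x - y‖⌋ = ⌊‖T' x - T' y‖⌋) ∧ ∀ s : S, T' s = T s := by
  obtain ⟨U, hU⟩ := exists_setup S hS T hT
  obtain ⟨J, hJ⟩ := exists_isDuality X
  have hd := dense_continuousAt hJ
  by_cases hdim : ∀ v : X, ∃ w : X, ∀ t : ℝ, w ≠ t • v
  · -- dimension at least two: `T` is the restriction of an isometry
    have htr := hU.translation hJ hd hsc hdim
    have hne : S.Nonempty := hS.nonempty
    obtain ⟨s₀, hs₀⟩ := hne
    set c : X := U.symm (T ⟨s₀, hs₀⟩) - s₀ with hc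
    refine ⟨(Equiv.addRight c).trans U.toEquiv, ?_, ?_⟩
    · intro x y
      have : ‖((Equiv.addRight c).trans U.toEquiv) x - ((Equiv.addRight c).trans U.toEquiv) y‖
          = ‖x - y‖ := by
        change ‖U (x + c) - U (y + c)‖ = _
        rw [← map_sub, LinearIsometryEquiv.norm_map]
        congr 1; abel
      rw [this]
    · intro s
      change U (s + c) = T s
      have h1 := htr s ⟨s₀, hs₀⟩
      have h2 : (s : X) + c = U.symm (T s) := by
        have h3 : U.symm (T s) - (s : X) = c := h1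
        rw [← h3]; abel
      rw [h2, LinearIsometryEquiv.apply_symm_apply]
  · push Not at hdim
    obtain ⟨v, hv⟩ := hdim
    by_cases hv0 : v = 0
    · -- trivial space
      have hsub : Subsingleton X := ⟨fun a b => by
        obtain ⟨s, hs⟩ := hv a
        obtain ⟨t, ht⟩ := hv b
        rw [hs, ht, hv0, smul_zero, smul_zero]⟩
      exact ⟨Equiv.refl X, fun x y => rfl, fun s => Subsingleton.elim _ _⟩
    · -- the line
      have hvpos : 0 < ‖v‖ := norm_pos_iff.2 hv0
      obtain ⟨e, hen, hspan⟩ : ∃ e : X, ‖e‖ = 1 ∧ ∀ w : X, ∃ t : ℝ, w = t • e := by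
        refine ⟨‖v‖⁻¹ • v, ?_, ?_⟩
        · rw [norm_smul, norm_inv, norm_norm, inv_mul_cancel₀ hvpos.ne']
        · intro w
          obtain ⟨t, ht⟩ := hv w
          refine ⟨t * ‖v‖, ?_⟩
          rw [smul_smul, mul_assoc, mul_inv_cancel₀ hvpos.ne', mul_one, ht]
      obtain ⟨f, hf1, hf2⟩ := exists_dual_vector'' ℝ e
      have hfe : f e = 1 := by
        rw [hf2, hen]; rfl
      have hfw : ∀ w : X, w = f w • e := by
        intro w
        obtain ⟨t, rfl⟩ := hspan w
        rw [map_smul, hfe, smul_eq_mul, mul_one]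
      have hnorm : ∀ w : X, ‖w‖ = |f w| := by
        intro w
        nth_rewrite 1 [hfw w]
        rw [norm_smul, hen, mul_one, Real.norm_eq_abs]
      have hF : FPt e f := by
        refine ⟨hen, hfe, hf1, ?_⟩
        intro ε hε
        refine ⟨1, one_pos, ?_⟩
        intro w hw
        rw [hnorm w] at hw ⊢
        rw [hnorm (e + w), map_add, hfe, abs_of_nonneg (by linarith [(abs_le.1 hw).1])]
        have : 0 ≤ ε * |f w| := by positivity
        linarith
      -- transport to ℝ
      let E : X ≃ ℝ := ⟨fun w => f w, fun t => t • e, fun w => (hfw w).symm,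
        fun t => by change f (t • e) = t; rw [map_smul, hfe, smul_eq_mul, mul_one]⟩
      set A : Set ℝ := {t | t • e ∈ S} with hA
      have hAd : Dense A := by
        have h1 : A = (fun w => f w) '' S := by
          ext t
          constructor
          · intro ht; exact ⟨t • e, ht, by change f (t • e) = t; rw [map_smul, hfe, smul_eq_mul, mul_one]⟩
          · rintro ⟨w, hw, rfl⟩
            change f w • e ∈ S
            rw [← hfw w]; exact hw
        rw [h1]
        have hsur : Function.Surjective (fun w : X => f w) := fun t =>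
          ⟨t • e, by change f (t • e) = t; rw [map_smul, hfe, smul_eq_mul, mul_one]⟩
        exact hsur.denseRange.dense_image f.continuous hS
      set G : S → X := fun x => U.symm (T x) with hG
      let g : A → ℝ := fun t => f (G ⟨(t : ℝ) • e, t.2⟩)
      have hGinj : Function.Injective G := by
        intro x y hxy
        exact T.injective (Subtype.ext (U.symm.injective hxy))
      have hg : StrictMono g := by
        intro s t hst
        have h1 : f (G ⟨(s : ℝ) • e, s.2⟩) ≤ f (G ⟨(t : ℝ) • e, t.2⟩) := by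
          apply hU.mono hJ hd hF
          change f ((s : ℝ) • e) < f ((t : ℝ) • e)
          rw [map_smul, map_smul, hfe, smul_eq_mul, smul_eq_mul, mul_one, mul_one]
          exact hst
        refine lt_of_le_of_ne h1 ?_
        intro heq
        have h2 : G ⟨(s : ℝ) • e, s.2⟩ = G ⟨(t : ℝ) • e, t.2⟩ := by
          rw [hfw (G ⟨(s : ℝ) • e, s.2⟩), hfw (G ⟨(t : ℝ) • e, t.2⟩)]
          change g s • e = g t • e
          change g s = g t at heq
          rw [heq]
        have h3 := Subtype.ext_iff.1 (hGinj h2)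
        change (s : ℝ) • e = (t : ℝ) • e at h3
        have h4 := congrArg f h3
        rw [map_smul, map_smul, hfe, smul_eq_mul, smul_eq_mul, mul_one, mul_one] at h4
        exact absurd h4 (ne_of_lt hst)
      have hgr : DenseRange g := by
        have hsur : Function.Surjective (fun w : X => f w) := fun t =>
          ⟨t • e, by change f (t • e) = t; rw [map_smul, hfe, smul_eq_mul, mul_one]⟩
        have h1 : DenseRange (fun x : S => f (G x)) :=
          hsur.denseRange.comp hU.denseRange f.continuous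
        refine h1.mono ?_
        rintro _ ⟨x, rfl⟩
        have hx : f (x : X) ∈ A := by
          change f (x : X) • e ∈ S
          rw [← hfw]; exact x.2
        refine ⟨⟨f x, hx⟩, ?_⟩
        change f (G ⟨f (x : X) • e, hx⟩) = f (G x)
        congr 2
        exact Subtype.ext (hfw x).symm
      obtain ⟨φ, hφ⟩ := exists_orderIso_ext A hAd g hg hgr
      have hkey : ∀ a ∈ A, ∀ b ∈ A, ∀ k : ℕ, |a - b| < k ↔ |φ a - φ b| < k := by
        intro a ha b hb k
        have h1 := hU.lt_iff ⟨a • e, ha⟩ ⟨b • e, hb⟩ k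
        change ‖a • e - b • e‖ < k ↔ _ at h1
        rw [hnorm, hnorm, map_sub, map_sub, map_smul, map_smul, hfe, smul_eq_mul, smul_eq_mul,
          mul_one, mul_one] at h1
        rw [h1]
        have ha' := hφ ⟨a, ha⟩
        have hb' := hφ ⟨b, hb⟩
        change φ a = f (G ⟨a • e, ha⟩) at ha'
        change φ b = f (G ⟨b • e, hb⟩) at hb'
        rw [ha', hb']
      have hkey2 := ext_lt_iff A hAd φ hkey
      refine ⟨(E.trans φ.toEquiv).trans (E.symm.trans U.toEquiv), ?_, ?_⟩
      · intro x y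
        apply floor_eq_of_lt_iff (norm_nonneg _) (norm_nonneg _)
        intro k
        change _ ↔ ‖U (φ (f x) • e) - U (φ (f y) • e)‖ < k
        rw [← map_sub, LinearIsometryEquiv.norm_map, ← sub_smul, norm_smul, hen, mul_one,
          Real.norm_eq_abs, hnorm, map_sub]
        exact hkey2 _ _ k
      · intro s
        change U (φ (f s) • e) = T s
        have hs : f (s : X) ∈ A := by
          change f (s : X) • e ∈ S
          rw [← hfw]; exact s.2
        have h1 := hφ ⟨f s, hs⟩
        change φ (f s) = f (G ⟨f (s : X) • e, hs⟩) at h1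
        have h2 : (⟨f (s : X) • e, hs⟩ : S) = s := Subtype.ext (hfw s).symm
        rw [h2] at h1
        rw [h1, ← hfw (G s)]
        change U (U.symm (T s)) = T s
        rw [LinearIsometryEquiv.apply_symm_apply]

end Pool.Agent.H44
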